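import Mathlib
import Pool.Agent.MP_9b11ca_co.Core

/-!
A lower bound for pairwise reversing families of permutations: growth rate at least the positive
root `1.60793...` of `x ^ 8 = 8 x ^ 2 + 24`.
-/

namespace Pool.Agent.Results.MP_9b11ca_co.LowerBound

theorem result (x : ℝ) (hx : 1 ≤ x) (hr : x ^ 8 ≤ 8 * x ^ 2 + 24) (n : ℕ) :
    ∃ S : Finset (Equiv.Perm (Fin n)),
      (∀ σ ∈ S, ∀ τ ∈ S, σ ≠ τ → ∃ i j : Fin n, i ≠ j ∧ σ i = τ j ∧ σ j = τ i) ∧
      x ^ n ≤ x ^ 7 * (S.card : ℝ) := by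
  classical
  obtain ⟨ι, hι, f, hf, hc⟩ :=
    Pool.Agent.MP_9b11ca_co.good_all hx hr n (Fin n) (Fintype.card_fin n)
  have hinj : Function.Injective f := by
    intro a b hab
    by_contra hne
    obtain ⟨i, j, hij, h1, _⟩ := hf a b hne
    exact hij ((f b).injective (hab ▸ h1))
  refine ⟨Finset.univ.image f, ?_, ?_⟩
  · intro σ hσ τ hτ hne
    obtain ⟨a, -, rfl⟩ := Finset.mem_image.1 hσ
    obtain ⟨b, -, rfl⟩ := Finset.mem_image.1 hτ
    exact hf a b fun h => hne (by rw [h])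
  · rw [Finset.card_image_of_injective _ hinj, Finset.card_univ]
    simpa using hc

end Pool.Agent.Results.MP_9b11ca_co.LowerBound
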