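import Mathlib
import Pool.Agent.MP_9b11ca_co.Match

/-! A family of perfect matchings of `K_(2n)` in which the union of any two members contains a cycle
of length four has at most `(1 + √2) ^ n` members. -/

namespace Pool.Agent.Results.MP_9b11ca_co.MatchingBound

open Pool.Agent.MP_9b11ca_co.Match

theorem result (n : ℕ) (F : Finset (⊤ : SimpleGraph (Fin (2 * n))).Subgraph)
    (perfect : ∀ M ∈ F, M.IsPerfectMatching)
    (creating : ∀ M ∈ F, ∀ N ∈ F, M ≠ N →
      (SimpleGraph.cycleGraph 4).IsContained (M.spanningCoe ⊔ N.spanningCoe)) :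
    (F.card : ℝ) ≤ (1 + √2) ^ n := by
  have ex : ∀ M : (⊤ : SimpleGraph (Fin (2 * n))).Subgraph, ∃ a : Equiv.Perm (Fin (2 * n)),
      M.IsPerfectMatching → (∀ x, a (a x) = x) ∧ ∀ x y, M.Adj x y ↔ a x = y := by
    intro M
    by_cases h : M.IsPerfectMatching
    · choose g h1 h2 using SimpleGraph.Subgraph.isPerfectMatching_iff.1 h
      have inv : Function.Involutive g := fun x => (h2 _ _ (h1 x).symm).symm
      exact ⟨inv.toPerm, fun _ => ⟨inv, fun x y => ⟨fun k => (h2 _ _ k).symm, fun k => k ▸ h1 x⟩⟩⟩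
    · exact ⟨1, fun k => absurd k h⟩
  choose f hf using ex
  have s2 : √2 * √2 = 2 := Real.mul_self_sqrt (by norm_num)
  have hβ : 2 * (√2 / 2) ^ 2 = 1 := by linear_combination s2 / 2
  refine main F (β := √2 / 2) (by positivity) f (fun M hM N hN ne => ?_) (fun M hM => ?_)
    (by positivity)
  · obtain ⟨a1, a2⟩ := hf M (perfect M hM)
    obtain ⟨b1, b2⟩ := hf N (perfect N hN)
    obtain ⟨φ⟩ := creating M hM N hN ne
    have d : ∀ x y, x ≠ y → φ x ≠ φ y := fun x y h k => h (φ.injective k)
    have e : ∀ x y, (SimpleGraph.cycleGraph 4).Adj x y → f M (φ x) = φ y ∨ f N (φ x) = φ y := by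
      intro x y h
      simpa [a2, b2] using φ.toHom.map_adj h
    have t : ∀ a : Equiv.Perm (Fin (2 * n)), (∀ x, a (a x) = x) → ∀ x y z, x ≠ z →
        a (φ x) = φ y → a (φ y) ≠ φ z := fun a h x y z ne h1 h2 => d x z ne (by rw [← h2, ← h1, h])
    rcases e 0 1 (by decide) with h0 | h0
    · have h1 := (e 1 2 (by decide)).resolve_left (t _ a1 0 1 2 (by decide) h0)
      have h2 := (e 2 3 (by decide)).resolve_right (t _ b1 1 2 3 (by decide) h1)
      have h3 := (e 3 0 (by decide)).resolve_left (t _ a1 2 3 0 (by decide) h2)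
      exact off hβ a1 b1 h0 h1 h2 h3 (d _ _ (by decide)) (d _ _ (by decide)) (d _ _ (by decide))
        (d _ _ (by decide)) (d _ _ (by decide)) (d _ _ (by decide))
    · have h1 := (e 1 2 (by decide)).resolve_right (t _ b1 0 1 2 (by decide) h0)
      have h2 := (e 2 3 (by decide)).resolve_left (t _ a1 1 2 3 (by decide) h1)
      have h3 := (e 3 0 (by decide)).resolve_right (t _ b1 2 3 0 (by decide) h2)
      exact off hβ a1 b1 h1 h2 h3 h0 (d _ _ (by decide)) (d _ _ (by decide)) (d _ _ (by decide))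
        (d _ _ (by decide)) (d _ _ (by decide)) (d _ _ (by decide))
  · obtain ⟨a1, a2⟩ := hf M (perfect M hM)
    have := diag (β := √2 / 2) (by positivity) a1 fun x h => ((a2 x x).2 h).ne rfl
    rwa [show 1 + 2 * (√2 / 2) = 1 + √2 by ring] at this

end Pool.Agent.Results.MP_9b11ca_co.MatchingBound
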