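import Mathlib
import Pool.Agent.MP_9b11ca_co.Fano

/-! There are `7 ^ ⌊(n - 1) / 3⌋` perfect matchings of `K_(2n)` such that the union of any two
contains a cycle of length four. -/

namespace Pool.Agent.Results.MP_9b11ca_co.MatchingLower

theorem result (n : ℕ) : ∃ F : Finset (⊤ : SimpleGraph (Fin (2 * n))).Subgraph,
    (∀ M ∈ F, M.IsPerfectMatching) ∧
    (∀ M ∈ F, ∀ N ∈ F, M ≠ N →
      (SimpleGraph.cycleGraph 4).IsContained (M.spanningCoe ⊔ N.spanningCoe)) ∧
    7 ^ ((n - 1) / 3) ≤ F.card := by
  classical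
  obtain ⟨ι, hι, f, h1, h2, hc⟩ := Pool.Agent.MP_9b11ca_co.Fano.good_all n
  let m : ι → (⊤ : SimpleGraph (Fin (2 * n))).Subgraph := fun a =>
    { verts := Set.univ
      Adj := fun x y => f a x = y
      adj_sub := fun {x y} h k => (h1 a x).2 (h.trans k.symm)
      edge_vert := fun _ => trivial
      symm := ⟨fun x y h => h ▸ (h1 a x).1⟩ }
  have adj : ∀ a x y, (m a).Adj x y ↔ f a x = y := fun _ _ _ => Iff.rfl
  have inj : Function.Injective m := by
    intro a b hab
    by_contra hne
    obtain ⟨x, hx, -⟩ := h2 a b hne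
    exact hx ((adj b x _).1 (hab ▸ (adj a x _).2 rfl)).symm
  refine ⟨Finset.univ.image m, ?_, ?_, ?_⟩
  · intro M hM
    obtain ⟨a, -, rfl⟩ := Finset.mem_image.1 hM
    exact SimpleGraph.Subgraph.isPerfectMatching_iff.2 fun x =>
      ⟨f a x, rfl, fun y h => Eq.symm h⟩
  · intro M hM N hN hne
    obtain ⟨a, -, rfl⟩ := Finset.mem_image.1 hM
    obtain ⟨b, -, rfl⟩ := Finset.mem_image.1 hN
    obtain ⟨x, hx, hx'⟩ := h2 a b fun h => hne (by rw [h])
    have a1 := (h1 a x).1
    have b1 := (h1 b x).1
    have a2 : f a (f b (f a x)) = f b x := by rw [← hx', (h1 a _).1]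
    have b2 := (h1 b (f a x)).1
    have d1 : x ≠ f a x := (h1 a x).2.symm
    have d2 : x ≠ f b (f a x) := fun h => hx (by rw [← b2, ← h])
    have d3 : x ≠ f b x := (h1 b x).2.symm
    have d4 : f a x ≠ f b (f a x) := (h1 b _).2.symm
    have d5 : f b (f a x) ≠ f b x := fun h => d1 (by rw [← b2, h, b1])
    refine ⟨⟨⟨![x, f a x, f b (f a x), f b x], ?_⟩, ?_⟩⟩
    · intro i j hij
      fin_cases i <;> fin_cases j <;> first
        | exact absurd hij (by decide)
        | simp [adj, a1, b1, a2, b2, hx']
    · intro i j hij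
      fin_cases i <;> fin_cases j <;> first
        | rfl
        | exact absurd hij d1
        | exact absurd hij d2
        | exact absurd hij d3
        | exact absurd hij d4
        | exact absurd hij d5
        | exact absurd hij hx
        | exact absurd hij.symm d1
        | exact absurd hij.symm d2
        | exact absurd hij.symm d3
        | exact absurd hij.symm d4
        | exact absurd hij.symm d5
        | exact absurd hij.symm hx
  · rwa [Finset.card_image_of_injective _ inj, Finset.card_univ]

end Pool.Agent.Results.MP_9b11ca_co.MatchingLower
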